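import Pool.Agent.Q267.CDE.Forty8
import Pool.Agent.Q267.CDE.Forty8b
import Pool.Agent.Q267.CDE.Res2

/-!
# MP_37e900_nt, Q2

Supercongruences for the sums of `C(4k,2k) C(2k,k) / 48^k`.
-/

namespace Pool.Agent.Results.MP_37e900_nt.QuestionTwo

open Finset

/-- `r ≡ s (mod p^2)`: `p^2` divides the numerator of `r - s` written in lowest terms. -/
def Cong (p : ℕ) (r s : ℚ) : Prop := (p : ℤ) ^ 2 ∣ (r - s).num

/-- `U_p(m) = ∑_{k<p} m^{-k} C(4k,2k) C(2k,k)`. -/
def U (p : ℕ) (m : ℚ) : ℚ :=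
  ∑ k ∈ range p, ((4 * k).choose (2 * k) : ℚ) * ((2 * k).choose k : ℚ) / m ^ k

/-- `V_p(m) = ∑_{k<p} k m^{-k} C(4k,2k) C(2k,k)`. -/
def V (p : ℕ) (m : ℚ) : ℚ :=
  ∑ k ∈ range p, (k : ℚ) * ((4 * k).choose (2 * k) : ℚ) * ((2 * k).choose k : ℚ) / m ^ k

open Pool.Agent.Q267 Pool.Agent.Q267.CDE Pool.Agent.Q261.SC Q278.PI

theorem cong_of {p : ℕ} [hp : Fact p.Prime] {r s : ℚ} (a b : O p) (ha : (a : ℚ) = r)
    (hb : (b : ℚ) = s) (h : res2 p a = res2 p b) : Cong p r s := by
  subst ha hb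
  exact cong_of_res2 p a b h

section

variable (p : ℕ) [hp : Fact p.Prime] (h3 : 3 < p)

include h3

theorem nd48 : ¬ (p : ℤ) ∣ 48 := by
  intro h
  have h' : (p : ℤ) ∣ 2 ^ 4 * 3 := by norm_num; exact h
  have hpi := Nat.prime_iff_prime_int.1 hp.out
  rcases hpi.dvd_or_dvd h' with h | h
  · have := Int.le_of_dvd (by norm_num) (hpi.dvd_of_dvd_pow h)
    omega
  · have := Int.le_of_dvd (by norm_num) h
    omega

theorem U_res : ∃ a : O p, (a : ℚ) = U p 48 ∧ res2 p a = SA p (res2 p (invI p 48)) := by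
  have h := nd48 p h3
  refine ⟨∑ k ∈ range p, ((((4 * k).choose (2 * k) * (2 * k).choose k : ℕ) : O p) * (invI p 48) ^ k), ?_, ?_⟩
  · unfold U
    push_cast
    refine sum_congr rfl fun k _ => ?_
    rw [invI_coe p 48 h]
    push_cast
    rw [inv_pow, div_eq_mul_inv]
  · unfold SA
    simp only [map_sum, map_mul, map_pow, map_natCast]

theorem V_res : ∃ a : O p, (a : ℚ) = V p 48 ∧ res2 p a = SB p (res2 p (invI p 48)) := by
  have h := nd48 p h3
  refine ⟨∑ k ∈ range p, (k : O p) *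
    ((((4 * k).choose (2 * k) * (2 * k).choose k : ℕ) : O p) * (invI p 48) ^ k), ?_, ?_⟩
  · unfold V
    push_cast
    refine sum_congr rfl fun k _ => ?_
    rw [invI_coe p 48 h]
    push_cast
    rw [inv_pow, div_eq_mul_inv]
    ring
  · unfold SB
    simp only [map_sum, map_mul, map_pow, map_natCast]

end

/-- the case `p ≡ 1 (mod 3)` in `ℤ/p²` -/
theorem one_mod (p : ℕ) [hp : Fact p.Prime] (r : ℕ) (hr : p = 6 * r + 1) (x y : ℤ)
    (hxy : (p : ℤ) = x ^ 2 + 3 * y ^ 2) (hx : x % 3 = 1) (c : R p) (hc : 48 * c = 1)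
    (X : R p) (hX : 2 * (x : R p) * X = 1) :
    SA p c = 2 * (x : R p) - p * X ∧ SA p c + SB p c = x := by
  have hp2' := hp.out.two_le
  have hr0 : 0 < r := by omega
  obtain ⟨w, η, hw, hη, hη3, hred, hA⟩ := A_val r hr x y hxy
  have hη1 : η = -1 := by
    rcases hη with h | h
    · exfalso
      rw [h] at hη3
      omega
    · exact h
  subst hη1
  set s : R p := 2 * w + 1 with hs
  have hs2 : s ^ 2 = -3 := by rw [hs]; linear_combination 4 * hw
  have h3u : IsUnit (3 : R p) := by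
    have := isUnit_nat p 3 (by omega) (by omega)
    exact_mod_cast this
  have h2u : IsUnit (2 : R p) := by
    have := isUnit_nat p 2 (by omega) (by omega)
    exact_mod_cast this
  have hsu : IsUnit s := by
    have : IsUnit (s ^ 2) := by rw [hs2]; exact h3u.neg
    exact (isUnit_pow_iff two_ne_zero).1 this
  have hs0 : CDE.red p s ≠ 0 := (hsu.map (CDE.red p)).ne_zero
  set ε : ℤ := quadraticChar (ZMod p) (CDE.red p s) with hε
  have hε2 : ε * ε = 1 := by
    have := quadraticChar_sq_one hs0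
    rw [← pow_two]
    exact this
  have hεr : (CDE.red p s) ^ (3 * r) = ((ε : ℤ) : ZMod p) := by
    rw [hε, quadraticChar_eq_pow_of_char_ne_two' (by rw [ZMod.ringChar_zmod_n]; omega), ZMod.card,
      show p / 2 = 3 * r by omega]
  have hε2' : (ε : R p) * ε = 1 := by rw [← Int.cast_mul, hε2, Int.cast_one]
  have hpp := CDE.p_sq p
  -- `x + y s = p X`
  obtain ⟨z, hz⟩ := red_eq_of p ((x : R p) + y * s) 0 (by rw [hred, map_zero])
  rw [zero_add] at hz
  have hxy' := congrArg (Int.cast : ℤ → R p) hxy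
  push_cast at hxy'
  have hz2 : (p : R p) * z * (2 * x) = p := by
    linear_combination (-1 : R p) * hxy' + z ^ 2 * hpp - (x - y * s) * hz + p * z * hz
      - (y : R p) ^ 2 * hs2
  have hpz : (p : R p) * z = p * X := by
    linear_combination X * hz2 - (p : R p) * z * hX
  have hD : D0 p (3 * r) w = ε * (2 * (x : R p) - p * X) := by
    unfold D0
    rw [hA]
    push_cast
    linear_combination (-(ε : R p)) * hz - (ε : R p) * hpz
  have hI : D0 p (3 * r) w * (ε * (X + p * X ^ 3)) = 1 := by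
    rw [hD]
    linear_combination ((2 * (x : R p) - p * X) * (X + p * X ^ 3)) * hε2' +
      (1 + p * X ^ 2) * hX - X ^ 4 * hpp
  obtain ⟨h1, h2⟩ := case48 p r hr w hw ε hε2 hεr c hc _ hI
  have e1 : SA p c = 2 * (x : R p) - p * X := by
    rw [h1, hD]
    linear_combination (2 * (x : R p) - p * X) * hε2'
  refine ⟨e1, ?_⟩
  apply h2u.mul_left_cancel
  rw [h2, hD]
  linear_combination (2 * (x : R p) - p * X + p * (X + p * X ^ 3)) * hε2' + X ^ 3 * hpp

/-- **MP_37e900_nt, Q2.** For every prime `p > 3`: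
(a) if `p ≡ 1 (mod 3)` and `p = x² + 3y²` with `x ≡ 1 (mod 3)`, then
`S_p ≡ 2x - p/(2x)` and `T_p ≡ x` modulo `p²`, where `S_p = U_p(48)`, `T_p = U_p(48) + V_p(48)`;
(b) if `p ≡ 2 (mod 3)`, then `S_p ≡ 3p/(2c_p)` modulo `p²`, `c_p = C((p+1)/2, (p+1)/6)`. -/
theorem result (p : ℕ) (hp' : p.Prime) (h3 : 3 < p) :
    (p % 3 = 1 → ∀ x y : ℤ, (p : ℤ) = x ^ 2 + 3 * y ^ 2 → x % 3 = 1 →
      Cong p (U p 48) (2 * (x : ℚ) - p / (2 * (x : ℚ))) ∧ Cong p (U p 48 + V p 48) x) ∧
    (p % 3 = 2 →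
      Cong p (U p 48) (3 * (p : ℚ) / (2 * (((p + 1) / 2).choose ((p + 1) / 6) : ℚ)))) := by
  have hp := Fact.mk hp'
  have hpi := Nat.prime_iff_prime_int.1 hp'
  have hodd : p % 2 = 1 := by
    rcases hp'.eq_two_or_odd with h | h
    · omega
    · exact h
  have hc := res2_invI p 48 (nd48 p h3)
  push_cast at hc
  obtain ⟨a, ha, hra⟩ := U_res p h3
  obtain ⟨b, hb, hrb⟩ := V_res p h3
  have hp2 : ¬ (p : ℤ) ∣ 2 := by
    intro h
    have := Int.le_of_dvd (by norm_num) h
    omega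
  refine ⟨?_, ?_⟩
  · intro h1 x y hxy hx
    obtain ⟨r, hr⟩ : ∃ r, p = 6 * r + 1 := ⟨p / 6, by omega⟩
    have hxd : ¬ (p : ℤ) ∣ x := by
      intro h
      have hx0 : x ≠ 0 := by omega
      have h1 := Int.le_of_dvd (by positivity) ((dvd_abs _ _).2 h)
      have h2 : (p : ℤ) ^ 2 ≤ x ^ 2 := by
        rw [← sq_abs x]
        exact pow_le_pow_left₀ (by positivity) h1 2
      nlinarith [sq_nonneg y]
    have h2x : ¬ (p : ℤ) ∣ 2 * x := by
      intro h
      rcases hpi.dvd_or_dvd h with h | h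
      · exact hp2 h
      · exact hxd h
    have hX := res2_invI p (2 * x) h2x
    push_cast at hX
    obtain ⟨e1, e2⟩ := one_mod p r hr x y hxy hx _ hc _ hX
    refine ⟨?_, ?_⟩
    · refine cong_of a (2 * (x : O p) - (p : O p) * invI p (2 * x)) ha ?_ ?_
      · push_cast
        rw [invI_coe p _ h2x]
        push_cast
        rw [div_eq_mul_inv]
        rfl
      · rw [hra, e1]
        simp only [map_mul, map_sub, map_natCast, map_intCast, map_ofNat]
    · refine cong_of (a + b) (x : O p) ?_ ?_ ?_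
      · push_cast
        rw [ha, hb]
      · push_cast
        rfl
      · rw [map_add, hra, hrb, e2, map_intCast]
  · intro h2
    obtain ⟨r, hr⟩ : ∃ r, p = 6 * r + 5 := ⟨p / 6, by omega⟩
    have e1 : (p + 1) / 2 = 3 * r + 3 := by omega
    have e2 : (p + 1) / 6 = r + 1 := by omega
    rw [e1, e2]
    set C := (3 * r + 3).choose (r + 1) with hC
    have hCd : ¬ (p : ℤ) ∣ 2 * (C : ℤ) := by
      intro h
      rcases hpi.dvd_or_dvd h with h | h
      · exact hp2 h
      · have h4 : p ∣ C := by exact_mod_cast h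
        have h5 := Nat.choose_mul_factorial_mul_factorial (show r + 1 ≤ 3 * r + 3 by omega)
        have h6 : p ∣ (3 * r + 3).factorial := by
          rw [← h5, mul_assoc]
          exact Dvd.dvd.mul_right h4 _
        rw [hp'.dvd_factorial] at h6
        omega
    have hCi := res2_invI p (2 * (C : ℤ)) hCd
    push_cast at hCi
    refine cong_of a (3 * (p : O p) * invI p (2 * (C : ℤ))) ha ?_ ?_
    · push_cast
      rw [invI_coe p _ hCd]
      push_cast
      rw [div_eq_mul_inv]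
      rfl
    · have h5 := case48b p r hr _ hc
      rw [hra]
      simp only [map_mul, map_natCast, map_ofNat]
      linear_combination (res2 p (invI p (2 * (C : ℤ)))) * h5 - (SA p (res2 p (invI p 48))) * hCi

end Pool.Agent.Results.MP_37e900_nt.QuestionTwo
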